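import Pool.Agent.MP_fcd29e_an.H11.CS

/-!
Completion of one block to all blocks, and derivatives of the local coordinates of the curve.
-/

set_option autoImplicit false

open Complex Set Filter Topology Metric Pool.Agent.MP_fcd29e_an.H11

namespace Pool.Agent.MP_fcd29e_an.H93

namespace CX0

theorem comp_an {α : Type} [Fintype α] {s : ℂ → α → ℂ} {z₀ : ℂ} (hs : AnalyticAt ℂ s z₀) (o : α) :
    AnalyticAt ℂ (fun y => s y o) z₀ :=
  ((ContinuousLinearMap.proj o : (α → ℂ) →L[ℂ] ℂ).analyticAt _).comp hs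

theorem not_imm {α : Type} [Fintype α] {s : ℂ → α → ℂ} {z₀ : ℂ} (hs : AnalyticAt ℂ s z₀) (b : α)
    (hb : s z₀ b ≠ 0) (h : ∀ o, deriv (fun y => s y o / s y b) z₀ = 0) : ¬Imm s z₀ := by
  intro hi
  apply hi (deriv (fun y => s y b) z₀ / s z₀ b)
  funext o
  have h1 := h o
  rw [deriv_fun_div (comp_an hs o).differentiableAt (comp_an hs b).differentiableAt hb,
    div_eq_zero_iff, or_iff_left (pow_ne_zero 2 hb), sub_eq_zero] at h1
  rw [deriv_pi fun i => (comp_an hs i).differentiableAt, Pi.smul_apply, smul_eq_mul]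
  field_simp
  rw [h1, mul_comm]

theorem deriv_zero {f g : ℂ → ℂ} {z₀ a b : ℂ} {n : ℕ} (hn : 1 ≤ n) (hf : DifferentiableAt ℂ f z₀)
    (hg : DifferentiableAt ℂ g z₀) (h : ∀ᶠ z in 𝓝 z₀, f z ^ n = a + b * g z ^ n) (h0 : f z₀ ≠ 0)
    (hd : deriv g z₀ = 0) : deriv f z₀ = 0 := by
  have h1 := hf.hasDerivAt.fun_pow n
  have h2 := ((hg.hasDerivAt.fun_pow n).const_mul b).const_add a
  have h3 := h1.unique (h2.congr_of_eventuallyEq h)
  rw [hd, mul_zero, mul_zero] at h3
  have hn' : (n : ℂ) ≠ 0 := Nat.cast_ne_zero.2 (by omega)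
  simpa [hn', h0] using h3

theorem ev_deriv {f : ℂ → ℂ} {z₀ : ℂ} (hf : AnalyticAt ℂ f z₀) (h : deriv f z₀ ≠ 0) :
    ∀ᶠ z in 𝓝 z₀, deriv f z ≠ 0 :=
  hf.deriv.continuousAt.eventually_ne h

theorem exists_pi {X Y β : Type} [NormedAddCommGroup X] [NormedSpace ℂ X] [NormedAddCommGroup Y]
    [NormedSpace ℂ Y] [Fintype β] (E : β → ℂ → (X →L[ℂ] Y)) {z₀ : ℂ}
    (hE : ∀ b, AnalyticAt ℂ (E b) z₀) :
    ∃ e : ℂ → (X →L[ℂ] (β → Y)), AnalyticAt ℂ e z₀ ∧ ∀ z x b, e z x b = E b z x := by
  classical
  refine ⟨fun z => ∑ b, (ContinuousLinearMap.single ℂ (fun _ : β => Y) b).comp (E b z), ?_, ?_⟩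
  · refine Finset.analyticAt_fun_sum _ fun b _ => ?_
    exact ((ContinuousLinearMap.compL ℂ X Y (β → Y)
      (ContinuousLinearMap.single ℂ (fun _ : β => Y) b)).analyticAt _).comp (hE b)
  · intro z x b
    simp [Finset.sum_apply, Pi.single_apply]

theorem an_comp {X Y Z : Type} [NormedAddCommGroup X] [NormedSpace ℂ X] [NormedAddCommGroup Y]
    [NormedSpace ℂ Y] [NormedAddCommGroup Z] [NormedSpace ℂ Z] (L : Y →L[ℂ] Z)
    {A : ℂ → (X →L[ℂ] Y)} {z₀ : ℂ} (hA : AnalyticAt ℂ A z₀) :
    AnalyticAt ℂ (fun z => L.comp (A z)) z₀ :=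
  ((ContinuousLinearMap.compL ℂ X Y Z L).analyticAt _).comp hA

variable {r m : ℕ} [NeZero m] {c S : ℝ} {om : Fin m → Fin r → ℂ} {F : ℂ → EV (Fin r)}

/-- The coordinate `k` of the third block. -/
noncomputable def pk (k : Fin r) : V (Fin r) →L[ℂ] ℂ :=
  (ContinuousLinearMap.proj k : (Fin r → ℂ) →L[ℂ] ℂ).comp
    ((ContinuousLinearMap.snd ℂ (Fin r → ℂ) (Fin r → ℂ)).comp
      (ContinuousLinearMap.snd ℂ ℂ ((Fin r → ℂ) × (Fin r → ℂ))))

theorem pk_apply (k : Fin r) (v : V (Fin r)) : pk k v = v.2.2 k := rfl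

theorem rel (hGR : SGR) (hax : ∀ j, Ax c S (om j)) (hF : ∀ j : Fin m, Orth (F (tp j)))
    {s : Option (Fin m) → ℂ} (hs : ∀ o, s o ≠ 0) (e : Bk m → V (Fin r)) (w : Wi r m → ℂ)
    (h1 : e (some none) = (s (some 0) / s none) ^ (4 * m) • Q0 (e none) + Qp (e none) +
      (s (some 0) / s none) ^ (8 * m) • Qm (e none))
    (h2 : ∀ j, e (some (some j)) =
      (s none / s (some j)) ^ 2 • Pp c S (om j) (Ring.inverse (F (tp j)) (e none)) +
        (s none / s (some j)) • P0 c S (om j) (Ring.inverse (F (tp j)) (e none)) +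
        Pm c S (om j) (Ring.inverse (F (tp j)) (e none)))
    (h3 : ∀ k, w (none, k) = (s none ^ (8 * m))⁻¹ * (e none).2.2 k)
    (h4 : ∀ j l k, w (some (j, l), k) = (s none / s (some j) * (s none ^ (8 * m))⁻¹) *
      mnr c S om F j (e none).2.2 l k) :
    RelE c S om F s e ∧ RelW c S om F s e w := by
  have q0 : ∀ v : V (Fin r), Q0 v = (v.1, 0, 0) := fun v => (hGR.blk _ v 1).1
  have qp : ∀ v : V (Fin r), Qp v = (0, v.2.1, 0) := fun v => (hGR.blk _ v 1).2.1
  have qm : ∀ v : V (Fin r), Qm v = (0, 0, v.2.2) := fun v => (hGR.blk _ v 1).2.2.1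
  have hσ := hs none
  have hC : ∀ j, Pp c S (om j) (e (some (some j))) =
      (s none / s (some j)) ^ 2 • Pp c S (om j) (Ring.inverse (F (tp j)) (e none)) ∧
      P0 c S (om j) (e (some (some j))) =
      (s none / s (some j)) • P0 c S (om j) (Ring.inverse (F (tp j)) (e none)) ∧
      Pm c S (om j) (e (some (some j))) = Pm c S (om j) (Ring.inverse (F (tp j)) (e none)) := by
    intro j
    obtain ⟨a1, a2, a3, a4, a5, a6, a7, a8, a9⟩ := hGR.prj _ c S (om j) (hax j)
    rw [h2 j]
    generalize Ring.inverse (F (tp j)) (e none) = y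
    simp only [map_add, map_smul, ← mul_apply_eq_comp, a1, a2, a3, a4, a5, a6, a7, a8,
      a9, zero_apply, smul_zero, add_zero, zero_add, and_self]
  refine ⟨⟨?_, ?_, ?_, fun j => ⟨?_, ?_, (hC j).2.2⟩⟩, fun k => ⟨?_, ?_⟩, fun j l k => ⟨?_, ?_⟩⟩
  · rw [h1]
    simp only [q0, qp, qm, Prod.smul_mk, Prod.mk_add_mk, smul_zero, add_zero, smul_eq_mul,
      mul_zero, Prod.mk.injEq, and_true]
    rw [div_pow]
    field_simp
  · rw [h1]
    simp only [q0, qp, qm, Prod.smul_mk, Prod.mk_add_mk, smul_zero, add_zero, zero_add]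
  · rw [h1]
    simp only [q0, qp, qm, Prod.smul_mk, Prod.mk_add_mk, smul_zero, add_zero, zero_add, smul_smul,
      Prod.mk.injEq, true_and]
    congr 1
    rw [div_pow]
    field_simp
  · have := hs (some j)
    rw [(hC j).1, smul_smul]
    congr 1
    field_simp
  · have := hs (some j)
    rw [(hC j).2.1, smul_smul]
    congr 1
    field_simp
  · rw [h3]
    field_simp
  · rw [h3, h1]
    simp only [q0, qp, qm, Prod.smul_mk, Prod.mk_add_mk, smul_zero, add_zero, zero_add,
      Pi.smul_apply, smul_eq_mul]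
    rw [div_pow]
    field_simp
  · have := hs (some j)
    simp only [h4, h3, mnr]
    field_simp
  · have hj := hs (some j)
    have hu := ((hGR.op (Fin r)).2.2.2.2 _ (hF j)).1
    have hy : F (tp j) (Ring.inverse (F (tp j)) (e none)) = e none := by
      rw [← mul_apply_eq_comp, Ring.mul_inverse_cancel _ hu,
        one_apply_eq_self]
    have hm := ((hGR.vec _ c S (om j) (hax j)).2.2.2.2.2.2.2.2
      (Ring.inverse (F (tp j)) (e none))).2.1
    have h5 : s (some j) • Pp c S (om j) (e (some (some j))) +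
        s none • P0 c S (om j) (e (some (some j))) = (s none ^ 2 / s (some j)) •
          (Ring.inverse (F (tp j)) (e none) - Pm c S (om j) (Ring.inverse (F (tp j)) (e none))) := by
      rw [(hC j).1, (hC j).2.1, smul_smul, smul_smul,
        show s (some j) * (s none / s (some j)) ^ 2 = s none ^ 2 / s (some j) by field_simp,
        show s none * (s none / s (some j)) = s none ^ 2 / s (some j) by field_simp, ← smul_add]
      congr 1
      simp only [P0, sub_apply, one_apply_eq_self]
      abel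
    rw [h5, map_smul, map_sub, hy, hm, map_smul, h4]
    simp only [mnr, Prod.smul_snd, Prod.snd_sub, Pi.smul_apply, Pi.sub_apply, smul_eq_mul]
    field_simp
    ring

end CX0

open CX0

theorem sx0 (hGR : SGR) (_hXU : SXU) : SX0 := by
  intro r m n _ hn s z₀ hs hX hi
  refine ⟨fun j h0 hj => ?_, fun h0 => ?_, fun c S om F hax hF h0 A hA => ?_⟩
  · have han : ∀ o, AnalyticAt ℂ (fun y => s y o / s y none) z₀ := fun o =>
      (comp_an hs o).fun_div (comp_an hs none) h0
    have hne : ∀ᶠ z in 𝓝 z₀, s z none ≠ 0 := (comp_an hs none).continuousAt.eventually_ne h0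
    refine ev_deriv (han _) fun hd => not_imm hs none h0 (fun o => ?_) hi
    rcases o with _ | i
    · have : (fun y => s y none / s y none) =ᶠ[𝓝 z₀] fun _ => 1 :=
        hne.mono fun z hz => div_self hz
      rw [this.deriv_eq, deriv_const]
    · by_cases hij : i = j
      · rw [hij]; exact hd
      · refine deriv_zero (a := tp j - tp i) (b := 1) hn (han _).differentiableAt
          (han (some j)).differentiableAt ?_ (div_ne_zero (hj i hij) h0) hd
        filter_upwards [hX, hne] with z hz hz0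
        rw [div_pow, div_pow, hz.2 i, hz.2 j]
        field_simp
        ring
  · have han : ∀ o, AnalyticAt ℂ (fun y => s y o / s y (some 0)) z₀ := fun o =>
      (comp_an hs o).fun_div (comp_an hs (some 0)) (h0 0)
    have hne : ∀ᶠ z in 𝓝 z₀, s z (some 0) ≠ 0 :=
      (comp_an hs (some 0)).continuousAt.eventually_ne (h0 0)
    refine ev_deriv (han _) fun hd => not_imm hs (some 0) (h0 0) (fun o => ?_) hi
    rcases o with _ | i
    · exact hd
    · refine deriv_zero (a := 1) (b := -tp i) hn (han _).differentiableAt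
        (han none).differentiableAt ?_ (div_ne_zero (h0 i) (h0 0)) hd
      filter_upwards [hX, hne] with z hz hz0
      rw [div_pow, div_pow, hz.2 i]
      field_simp
      ring
  · have hq : ∀ o o', AnalyticAt ℂ (fun y => s y o / s y o') z₀ := fun o o' =>
      (comp_an hs o).fun_div (comp_an hs o') (h0 o')
    have hp : AnalyticAt ℂ (fun y => (s y none ^ (8 * m))⁻¹) z₀ :=
      ((comp_an hs none).fun_pow _).fun_inv (pow_ne_zero _ (h0 none))
    obtain ⟨e, he, he'⟩ := exists_pi (β := Bk m) (z₀ := z₀)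
      (fun b z => match b with
        | none => A z
        | some none => (s z (some 0) / s z none) ^ (4 * m) • Q0.comp (A z) + Qp.comp (A z) +
            (s z (some 0) / s z none) ^ (8 * m) • Qm.comp (A z)
        | some (some j) =>
            (s z none / s z (some j)) ^ 2 •
              (Pp c S (om j)).comp ((Ring.inverse (F (tp j))).comp (A z)) +
            (s z none / s z (some j)) •
              (P0 c S (om j)).comp ((Ring.inverse (F (tp j))).comp (A z)) +
            (Pm c S (om j)).comp ((Ring.inverse (F (tp j))).comp (A z))) (by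
        rintro (_ | _ | j)
        · exact hA
        · exact ((((hq _ _).fun_pow _).fun_smul (an_comp _ hA)).fun_add (an_comp _ hA)).fun_add
            (((hq _ _).fun_pow _).fun_smul (an_comp _ hA))
        · exact ((((hq _ _).fun_pow _).fun_smul (an_comp _ (an_comp _ hA))).fun_add
            ((hq _ _).fun_smul (an_comp _ (an_comp _ hA)))).fun_add (an_comp _ (an_comp _ hA)))
    obtain ⟨w, hw, hw'⟩ := exists_pi (β := Wi r m) (z₀ := z₀)
      (fun b z => match b with
        | (none, k) => (s z none ^ (8 * m))⁻¹ • (pk k).comp (A z)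
        | (some (j, l), k) => (s z none / s z (some j) * (s z none ^ (8 * m))⁻¹) •
            ((F (tp j) (em c S (om j))).2.2 l • pk k -
              (F (tp j) (em c S (om j))).2.2 k • pk l).comp (A z)) (by
        rintro ⟨_ | ⟨j, l⟩, k⟩
        · exact hp.fun_smul (an_comp _ hA)
        · exact ((hq _ _).fun_mul hp).fun_smul (an_comp _ hA))
    refine ⟨e, w, he, hw, ?_⟩
    have hne : ∀ᶠ z in 𝓝 z₀, ∀ o, s z o ≠ 0 :=
      eventually_all.2 fun o => (comp_an hs o).continuousAt.eventually_ne (h0 o)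
    filter_upwards [hne] with z hz x
    refine ⟨he' z x none, rel hGR hax hF hz _ _ ?_ (fun j => ?_) (fun k => ?_) fun j l k => ?_⟩
    · rw [he', he']; rfl
    · rw [he', he']; rfl
    · rw [hw', he']; rfl
    · rw [hw', he']; rfl

end Pool.Agent.MP_fcd29e_an.H93
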