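import Pool.Agent.MP_fcd29e_an.H81.Spec2

/-!
Existence of the weight function.
-/

set_option autoImplicit false

namespace Pool.Agent.MP_fcd29e_an.H93

open Pool.Agent.MP_fcd29e_an.H81 MeasureTheory Complex Set Filter Topology Metric
open scoped ContDiff ComplexConjugate ENNReal NNReal

theorem integrable_of_mu {N : ℕ} {ρ : E N → ℝ} {K : Set (E N)} {μ : Measure (E N)} (hK : KS ρ K)
    (hμ : Mu ρ K μ) {F : Type} [NormedAddCommGroup F] {g : E N → F}
    (hg : ∀ z ∈ K, ContinuousAt g z) : Integrable g μ := by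
  have := hμ.prob
  have hS : IsCompact (insert 0 K ∩ sphere (0 : E N) 1) :=
    (isCompact_sphere 0 1).inter_left hK.closed
  have h1 : ∀ᵐ z ∂μ, z ∈ insert 0 K ∩ sphere (0 : E N) 1 :=
    hμ.supp.mono fun z hz => ⟨Or.inr hz.1, by simpa using hz.2⟩
  have h2 : ContinuousOn g (insert 0 K ∩ sphere (0 : E N) 1) := by
    rintro z ⟨hz | hz, hz'⟩
    · rw [hz] at hz'; simp at hz'
    · exact (hg z hz).continuousWithinAt
  have h3 := h2.integrableOn_compact (μ := μ) hS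
  rwa [IntegrableOn, Measure.restrict_eq_self_of_ae_mem h1] at h3

theorem thmD (L : Lv0) (d0 : StmtD0) (d1 : StmtD1) (d2 : StmtD2) (d3 : StmtD3) (k : StmtTK2)
    (t : StmtTH4) (c : StmtCUT) (m : StmtMU) (n : StmtNUL) (g : StmtG4) : StmtD := by
  intro N ρ hN hρ
  rcases d0 N ρ hρ with h | ⟨K, hM⟩
  · exact h
  exfalso
  have hK := hM.1
  have hPN := d1 N ρ K hρ hM
  have hT := (d2 N ρ K hρ hK).1 hPN
  obtain ⟨U, α₀, hU, hc, hKU, hE⟩ : ∃ U α, IsOpen U ∧ Cone U ∧ K ⊆ U ∧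
      Ext ρ K U (2 * N + 8) α := by
    rcases d3 N ρ K hρ hM with h | h
    · exact k N ρ K hρ hK h _
    · exact t N ρ K hρ hK hPN h _
  obtain ⟨α, hα⟩ := (c N U hU hc).2 ρ K _ α₀ hK hKU hE
  obtain ⟨μ, hμ⟩ := m N ρ K hρ hK hM.2.1
  obtain ⟨hSI, hin⟩ := n N ρ K _ α hρ hK hT hα
  have h0 := g N ρ K μ α hN hρ hK hPN hT hμ hα
  have h1 := hμ.ann _ hSI
  obtain ⟨-, -, -, hPF⟩ := L.pf N
  obtain ⟨hop, -, -, hR, hR2, -, -⟩ := hPF ρ hρ
  have hne : ∀ z ∈ K, z ≠ 0 := fun z hz e => hK.cone.1 (e ▸ hz)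
  have hreg : ∀ z ∈ K, z ∈ Reg ρ := fun z hz => ⟨hne z hz, hρ.reg z (hne z hz) (hK.bd z hz)⟩
  have i1 : Integrable (fun z => ∑ l, ∑ k, PP ρ z l k * dz l (α k) z) μ := by
    refine integrable_of_mu hK hμ fun z hz => ?_
    refine tendsto_finsetSum _ fun l _ => tendsto_finsetSum _ fun k _ => ?_
    have a1 : ContinuousAt (lc ρ k l) z := ((hR z (hreg z hz)).2.2.2.2.1 k l).continuousAt
    have a2 : ContinuousAt (dz l (α k)) z := (contDiffAt_dz l
      ((hα.smooth k).contDiffAt (isOpen_E0.mem_nhds (hne z hz)))).continuousAt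
    exact a1.mul a2
  have i2 : Integrable (trH ρ fun z => Real.log (an ρ z * ‖z‖ ^ 2)) μ := by
    refine integrable_of_mu hK hμ fun z hz => ?_
    exact (hR2 z (hreg z hz) _
      (hSI.1.contDiffAt (hop.mem_nhds (hreg z hz)))).2.2.1.continuousAt
  have := hμ.prob
  have i3 : Integrable (fun z => (∑ l, ∑ k, PP ρ z l k * dz l (α k) z).re) μ := i1.re
  have h2 : ∫ z, (((N : ℝ) - 2) + 2 * (∑ l, ∑ k, PP ρ z l k * dz l (α k) z).re) ∂μ ≤
      ∫ z, trH ρ (fun z => Real.log (an ρ z * ‖z‖ ^ 2)) z ∂μ := by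
    refine integral_mono_ae ((integrable_const _).add (i3.const_mul 2)) i2 ?_
    filter_upwards [hμ.supp] with z hz
    have := hin z hz.1
    rwa [hz.2, one_pow, div_one] at this
  have h3 : ∫ z, (∑ l, ∑ k, PP ρ z l k * dz l (α k) z).re ∂μ = 0 := by
    have := integral_re (𝕜 := ℂ) i1
    rw [h0] at this
    simpa using this
  rw [h1, integral_add (integrable_const _) (i3.const_mul 2), integral_const_mul, h3] at h2
  have h4 : (4 : ℝ) ≤ N := by exact_mod_cast hN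
  simp at h2
  linarith

end Pool.Agent.MP_fcd29e_an.H93
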